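import Pool.Agent.ZP3.Stmts

/-!
Squad ZP3 (MP_6e1a06_nt), row MTH: nearby roots.
-/

set_option autoImplicit false

namespace Pool.Agent.ZP3.H39

open Pool.Agent.ZPT Pool.Agent.ZP3

theorem norm_n {p : ℕ} (hp : p.Prime) {K : Type} [NormedField K] [CharZero K] (hE : Ext p K)
    {n : ℕ} (hpn : ¬ p ∣ n) : ‖(n : K)‖ = 1 := by
  have h1 := hE (n : ℚ)
  have _ : Fact p.Prime := ⟨hp⟩
  have h2 : padicNorm p ((n : ℕ) : ℚ) = 1 := (padicNorm.nat_eq_one_iff (p := p) n).mpr hpn
  rw [h2] at h1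
  simpa using h1

theorem norm_rem {K : Type} [NormedField K] [IsUltrametricDist K] (n : ℕ) (y : K)
    (hy : ‖y‖ < 1) : ‖(1 + y) ^ n - 1 - n * y‖ ≤ ‖y‖ * ‖y‖ := by
  induction n with
  | zero => simp [mul_nonneg]
  | succ n ih =>
    have h1 : (1 + y) ^ (n + 1) - 1 - ((n + 1 : ℕ) : K) * y =
        (1 + y) * ((1 + y) ^ n - 1 - n * y) + n * (y * y) := by
      push_cast
      ring
    rw [h1]
    refine (IsUltrametricDist.norm_add_le_max _ _).trans (max_le ?_ ?_)
    · rw [norm_mul]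
      have h2 : ‖1 + y‖ ≤ 1 := by
        refine (IsUltrametricDist.norm_add_le_max _ _).trans (max_le ?_ hy.le)
        rw [norm_one]
      have h3 : 0 ≤ ‖(1 + y) ^ n - 1 - n * y‖ := norm_nonneg _
      nlinarith [norm_nonneg (1 + y)]
    · rw [norm_mul, norm_mul]
      have h2 : ‖(n : K)‖ ≤ 1 := IsUltrametricDist.norm_natCast_le_one K n
      have h3 : 0 ≤ ‖y‖ * ‖y‖ := mul_nonneg (norm_nonneg y) (norm_nonneg y)
      nlinarith [norm_nonneg (n : K)]

/-- `(1 + y) ^ n - 1` has the norm of `y` if `‖y‖ < 1` and `p ∤ n`. -/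
theorem norm_pow_sub_one {p : ℕ} (hp : p.Prime) {K : Type} [NormedField K] [CharZero K]
    [IsUltrametricDist K] (hE : Ext p K) {n : ℕ} (hpn : ¬ p ∣ n) (y : K)
    (hy : ‖y‖ < 1) : ‖(1 + y) ^ n - 1‖ = ‖y‖ := by
  by_cases h0 : y = 0
  · simp [h0]
  have hpos : 0 < ‖y‖ := norm_pos_iff.mpr h0
  have h1 : ‖(n : K) * y‖ = ‖y‖ := by rw [norm_mul, norm_n hp hE hpn, one_mul]
  have h2 := norm_rem n y hy
  have h3 : ‖(1 + y) ^ n - 1 - n * y‖ < ‖(n : K) * y‖ := by
    rw [h1]
    refine lt_of_le_of_lt h2 ?_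
    nlinarith
  have h4 : ‖((1 + y) ^ n - 1 - n * y) + n * y‖ =
      max ‖(1 + y) ^ n - 1 - n * y‖ ‖(n : K) * y‖ :=
    IsUltrametricDist.norm_add_eq_max_of_norm_ne_norm h3.ne
  rw [sub_add_cancel, max_eq_right h3.le, h1] at h4
  exact h4

theorem one_le_mprod {K : Type} (f : K → ℝ) (s : Multiset K) (h : ∀ a ∈ s, 1 ≤ f a) :
    1 ≤ (s.map f).prod := by
  induction s using Multiset.induction_on with
  | empty => simp
  | cons a s ih =>
    rw [Multiset.map_cons, Multiset.prod_cons]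
    have h1 := h a (Multiset.mem_cons_self a s)
    have h2 := ih fun b hb => h b (Multiset.mem_cons_of_mem hb)
    nlinarith

theorem exists_root {K : Type} [NormedField K] [IsAlgClosed K] (n : ℕ) (hn : 1 ≤ n) (w : K)
    (hw : ‖w - 1‖ < 1) : ∃ z : K, z ^ n = w ∧ ‖z - 1‖ < 1 := by
  by_contra hcon
  push Not at hcon
  have hn0 : n ≠ 0 := by omega
  have hm : (Polynomial.X ^ n - Polynomial.C w : Polynomial K).Monic :=
    Polynomial.monic_X_pow_sub_C w hn0
  have hs : (Polynomial.X ^ n - Polynomial.C w : Polynomial K).Splits :=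
    IsAlgClosed.splits _
  have h1 := hs.eq_prod_roots_of_monic hm
  have h2 : 1 - w = (((Polynomial.X ^ n - Polynomial.C w : Polynomial K).roots.map
      fun a => 1 - a)).prod := by
    have h3 := congrArg (Polynomial.eval (1 : K)) h1
    simp only [Polynomial.eval_sub, Polynomial.eval_pow, Polynomial.eval_X, one_pow,
      Polynomial.eval_C, Polynomial.eval_multiset_prod, Multiset.map_map, Function.comp_def]
      at h3
    exact h3
  have h4 : ‖1 - w‖ = (((Polynomial.X ^ n - Polynomial.C w : Polynomial K).roots.map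
      fun a => ‖1 - a‖)).prod := by
    rw [h2]
    have h5 := map_multiset_prod (normHom : K →*₀ ℝ)
      ((Polynomial.X ^ n - Polynomial.C w : Polynomial K).roots.map fun a => 1 - a)
    rw [Multiset.map_map] at h5
    exact h5
  have h6 : 1 ≤ (((Polynomial.X ^ n - Polynomial.C w : Polynomial K).roots.map
      fun a => ‖1 - a‖)).prod := by
    refine one_le_mprod _ _ ?_
    intro a ha
    have h7 : a ^ n = w := by
      have h8 := (Polynomial.mem_roots hm.ne_zero).mp ha
      simp only [Polynomial.IsRoot, Polynomial.eval_sub, Polynomial.eval_pow, Polynomial.eval_X,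
        Polynomial.eval_C] at h8
      exact sub_eq_zero.mp h8
    have h9 := hcon a h7
    rwa [norm_sub_rev] at h9
  rw [← h4, norm_sub_rev] at h6
  linarith

theorem mth : MTHStmt := by
  intro p hp K _ _ _ _ hE n x y ρ hn hpn hy hρ h
  have hyn : y ^ n ≠ 0 := pow_ne_zero n hy
  have hpos : 0 < ‖y ^ n‖ := norm_pos_iff.mpr hyn
  have hw : ‖x / y ^ n - 1‖ ≤ ρ := by
    have h1 : x / y ^ n - 1 = (x - y ^ n) / y ^ n := by
      field_simp
    rw [h1, norm_div, div_le_iff₀ hpos]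
    exact h
  obtain ⟨z, hz, hz1⟩ := exists_root n hn (x / y ^ n) (lt_of_le_of_lt hw hρ)
  have h2 := norm_pow_sub_one hp hE hpn (z - 1) hz1
  rw [add_sub_cancel, hz] at h2
  refine ⟨z * y, ?_, ?_⟩
  · rw [mul_pow, hz, div_mul_cancel₀ _ hyn]
  · have h3 : z * y - y = (z - 1) * y := by ring
    rw [h3, norm_mul, ← h2]
    exact mul_le_mul_of_nonneg_right hw (norm_nonneg y)

end Pool.Agent.ZP3.H39
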