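import Pool.Agent.ZP3.Stmts
import Pool.Agent.Helper88_ZPT.Tate

/-!
Squad ZP3 (MP_6e1a06_nt), row TAT: Tate parameters, `1/q = X - u₁ + O(q)`.
-/

set_option autoImplicit false

namespace Pool.Agent.ZP3.H39

open Pool.Agent.ZPT Pool.Agent.ZP3

theorem tat : TATStmt := by
  intro U hU p hp h5 K _ _ _ _ hE
  refine ⟨Pool.Agent.ZPT.H88.coef_le hU hp h5 hE 1, fun q hq0 hq1 => ?_⟩
  refine ⟨(Pool.Agent.ZPT.H88.tb U hU p hp h5 K hE q hq0 hq1).2, ?_⟩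
  have hqne : q ≠ 0 := norm_pos_iff.mp hq0
  have hs := Pool.Agent.ZPT.H88.summ hU hp h5 hE q hq1
  have hs1 : Summable fun n : ℕ => ((PowerSeries.coeff (n + 1) U : ℚ) : K) * q ^ (n + 1) :=
    (summable_nat_add_iff 1).mpr hs
  have h1 : ∑' n : ℕ, ((PowerSeries.coeff n U : ℚ) : K) * q ^ n =
      1 + ((PowerSeries.coeff 1 U : ℚ) : K) * q +
        ∑' n : ℕ, ((PowerSeries.coeff (n + 2) U : ℚ) : K) * q ^ (n + 2) := by
    rw [hs.tsum_eq_zero_add, hs1.tsum_eq_zero_add, hU.c0]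
    simp [add_assoc]
  have h2 : ‖∑' n : ℕ, ((PowerSeries.coeff (n + 2) U : ℚ) : K) * q ^ (n + 2)‖ ≤ ‖q‖ * ‖q‖ := by
    refine IsUltrametricDist.norm_tsum_le_of_forall_le_of_nonneg
      (mul_nonneg (norm_nonneg q) (norm_nonneg q)) fun n => ?_
    refine (Pool.Agent.ZPT.H88.term_le hU hp h5 hE (n + 2) q).trans ?_
    rw [pow_add, pow_two]
    have h3 : ‖q‖ ^ n ≤ 1 := pow_le_one₀ (norm_nonneg q) hq1.le
    nlinarith [mul_nonneg (norm_nonneg q) (norm_nonneg q)]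
  have h4 : q⁻¹ - (jv U q - ((PowerSeries.coeff 1 U : ℚ) : K)) =
      -(∑' n : ℕ, ((PowerSeries.coeff (n + 2) U : ℚ) : K) * q ^ (n + 2)) / q := by
    unfold jv
    rw [h1]
    field_simp
    ring
  rw [h4, norm_div, norm_neg, div_le_iff₀ hq0]
  exact h2

end Pool.Agent.ZP3.H39
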